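import Pool.Agent.W343.FZH.Spec

set_option autoImplicit false

open Finset Filter Topology

namespace Pool.Agent.W468.FZH

open Pool.Agent.W681.FZ Pool.Agent.W343.FZH

lemma mem_up {x : ℤ → ℂ} (hx : Memℓp x 2) : Memℓp (fun n : ℤ => x (n + 1)) 2 := by
  rw [mem2] at hx ⊢
  exact (Equiv.addRight (1 : ℤ)).summable_iff (f := fun n => ‖x n‖ ^ 2) |>.mpr hx

lemma mem_down {x : ℤ → ℂ} (hx : Memℓp x 2) (c : ℤ → ℂ) (hc : ∀ n, c n = 1 ∨ c n = -1) :
    Memℓp (fun n : ℤ => c n * x (n - 1)) 2 := by
  rw [mem2] at hx ⊢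
  have h1 : Summable (fun n : ℤ => ‖x (n - 1)‖ ^ 2) :=
    (Equiv.subRight (1 : ℤ)).summable_iff (f := fun n => ‖x n‖ ^ 2) |>.mpr hx
  refine h1.congr fun n => ?_
  rcases hc n with h | h <;> simp [h]

/-- the operator -/
theorem exists_T (c : ℤ → ℂ) (hc : ∀ n, c n = 1 ∨ c n = -1) :
    ∃ T : L2 →L[ℂ] L2, ∀ (x : L2) (n : ℤ), (T x) n = x (n + 1) + c n * x (n - 1) := by
  let S : L2 → L2 := fun x =>
    ⟨fun n => x (n + 1) + c n * x (n - 1),
      (mem_up (lp.memℓp x)).add (mem_down (lp.memℓp x) c hc)⟩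
  have hS : ∀ (x : L2) (n : ℤ), (S x) n = x (n + 1) + c n * x (n - 1) := fun x n => rfl
  let L : L2 →ₗ[ℂ] L2 :=
    { toFun := S
      map_add' := by
        intro x y
        apply lp.ext
        funext n
        simp only [hS, lp.coeFn_add, Pi.add_apply]
        ring
      map_smul' := by
        intro a x
        apply lp.ext
        funext n
        simp only [hS, RingHom.id_apply, lp.coeFn_smul, Pi.smul_apply, smul_eq_mul]
        ring }
  have hcont : Continuous L := by
    apply LinearMap.continuous_of_seq_closed_graph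
    intro u x y hx hy
    have hcoe : Continuous (fun f : L2 => (f : ℤ → ℂ)) :=
      (lp.uniformContinuous_coe (E := fun _ : ℤ => ℂ) (p := 2)).continuous
    have hx' : ∀ n, Tendsto (fun k => (u k : ℤ → ℂ) n) atTop (𝓝 (x n)) := fun n =>
      ((continuous_apply n).comp hcoe).continuousAt.tendsto.comp hx
    have hy' : ∀ n, Tendsto (fun k => (S (u k) : ℤ → ℂ) n) atTop (𝓝 (y n)) := fun n =>
      ((continuous_apply n).comp hcoe).continuousAt.tendsto.comp hy
    apply lp.ext
    funext n
    have h1 : Tendsto (fun k => (u k) (n + 1) + c n * (u k) (n - 1))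
        atTop (𝓝 (x (n + 1) + c n * x (n - 1))) :=
      (hx' (n + 1)).add ((hx' (n - 1)).const_mul _)
    exact tendsto_nhds_unique (hy' n) h1
  exact ⟨⟨L, hcont⟩, fun x n => hS x n⟩

theorem spec_iff (z : ℂ) (c : ℤ → ℂ) (T : L2 →L[ℂ] L2)
    (hT : ∀ (x : L2) (n : ℤ), (T x) n = x (n + 1) + c n * x (n - 1)) :
    z ∈ spectrum ℂ T ↔ ¬ Bij z (fun n => c (n + 1)) := by
  rw [spectrum.mem_iff, not_iff_not, ContinuousLinearMap.isUnit_iff_bijective]
  have hap : ∀ (x : L2) (n : ℤ), ((algebraMap ℂ (L2 →L[ℂ] L2) z - T) x) n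
      = z * x n - (x (n + 1) + c n * x (n - 1)) := by
    intro x n
    have h1 : (algebraMap ℂ (L2 →L[ℂ] L2) z - T) x = z • x - T x := by
      simp [Algebra.algebraMap_eq_smul_one]
    rw [h1]
    simp only [lp.coeFn_sub, lp.coeFn_smul, Pi.sub_apply, Pi.smul_apply, smul_eq_mul, hT]
  constructor
  · intro hb y hy
    obtain ⟨x, hx, hxu⟩ := (Function.bijective_iff_existsUnique _).1 hb
      (⟨fun n => - y n, hy.neg⟩ : L2)
    have key : ∀ n : ℤ, z * x n - (x (n + 1) + c n * x (n - 1)) = - y n := by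
      intro n
      rw [← hap x n]
      exact congrFun (congrArg (fun f : L2 => (f : ℤ → ℂ)) hx) n
    refine ⟨x, ⟨lp.memℓp x, fun n => ?_⟩, ?_⟩
    · have := key n
      simp only [sub_add_cancel]
      linear_combination -this
    · rintro w ⟨hw, hwe⟩
      have h2 := hxu (⟨w, hw⟩ : L2) (by
        apply lp.ext
        funext n
        rw [hap]
        have := hwe n
        simp only [sub_add_cancel] at this
        show z * w n - (w (n + 1) + c n * w (n - 1)) = - y n
        linear_combination -this)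
      exact congrArg (fun f : L2 => (f : ℤ → ℂ)) h2
  · intro hB
    rw [Function.bijective_iff_existsUnique]
    intro y
    obtain ⟨x, ⟨hx, hxe⟩, hxu⟩ := hB (fun n => - y n) (lp.memℓp y).neg
    refine ⟨(⟨x, hx⟩ : L2), ?_, ?_⟩
    · apply lp.ext
      funext n
      rw [hap]
      have := hxe n
      simp only [sub_add_cancel] at this
      show z * x n - (x (n + 1) + c n * x (n - 1)) = y n
      linear_combination -this
    · intro w hw
      have h2 := hxu (w : ℤ → ℂ) ⟨lp.memℓp w, fun n => by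
        have := congrFun (congrArg (fun f : L2 => (f : ℤ → ℂ)) hw) n
        simp only [hap] at this
        simp only [sub_add_cancel]
        linear_combination -this⟩
      exact lp.ext h2

theorem partB : PartB := by
  intro z c hc
  constructor
  · rintro ⟨T, hT, hz⟩
    exact (spec_iff z c T hT).1 hz
  · intro h
    obtain ⟨T, hT⟩ := exists_T c hc
    exact ⟨T, hT, (spec_iff z c T hT).2 h⟩

end Pool.Agent.W468.FZH
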